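import Pool.Agent.U685.IN.Stm

/-!
# Package CRX of project IX: no fast passage to the forward points with large lateral coordinate
-/

set_option autoImplicit false
open MeasureTheory ProbabilityTheory Filter Set
open scoped ENNReal Topology Pointwise

namespace Pool.Agent.U934.IX

open Pool.Agent.N662.FP
open Pool.Agent.U685.IN

/-- the comparison point -/
noncomputable def wp (p q t σ τ : ℝ) : ℤ × ℤ :=
  (round (8 * t / 5 * (p - τ * σ * q)), round (8 * t / 5 * (q + τ * σ * p)))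

theorem g_lower {μ : Seminorm ℝ (ℝ × ℝ)} {p q m K σ τ : ℝ} (hT : Touch μ p q m) (hK : 1 ≤ K)
    (hσ : 0 < σ) (hσK : σ ≤ 10 * K) (hτ : τ = 1 ∨ τ = -1) :
    m + m * σ ^ 2 / (22 * K) ≤ μ (p - τ * σ * q, q + τ * σ * p) := by
  have h := hT.le (p - τ * σ * q, q + τ * σ * p)
  have hu := hT.unit
  have hτ2 : τ ^ 2 = 1 := by rcases hτ with rfl | rfl <;> norm_num
  have e : (p - τ * σ * q) ^ 2 + (q + τ * σ * p) ^ 2 = 1 + σ ^ 2 := by
    have : (p - τ * σ * q) ^ 2 + (q + τ * σ * p) ^ 2 = (p ^ 2 + q ^ 2) * (1 + τ ^ 2 * σ ^ 2) := by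
      ring
    rw [this, hu, hτ2]; ring
  simp only [e] at h
  refine le_trans ?_ h
  have hs : 1 + σ ^ 2 / (22 * K) ≤ Real.sqrt (1 + σ ^ 2) := by
    apply Real.le_sqrt_of_sq_le
    have hK0 : 0 < K := by linarith
    have h1 : σ ^ 2 / (22 * K) ≤ σ ^ 2 / 22 := by
      apply div_le_div_of_nonneg_left (by positivity) (by norm_num)
      linarith
    have h2 : σ ^ 2 / (22 * K) ≤ 100 / 22 * K := by
      rw [div_le_iff₀ (by positivity)]
      have : σ ^ 2 ≤ (10 * K) ^ 2 := by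
        apply pow_le_pow_left₀ hσ.le hσK
      nlinarith
    have h3 : 0 ≤ σ ^ 2 / (22 * K) := by positivity
    -- (1+s)^2 = 1 + 2 s + s^2 with s = σ²/(22K)
    have h4 : (σ ^ 2 / (22 * K)) ^ 2 ≤ σ ^ 2 * (100 / 484) := by
      have h5 : (σ ^ 2 / (22 * K)) ^ 2 = σ ^ 2 * (σ ^ 2 / (484 * K ^ 2)) := by
        field_simp
        ring
      rw [h5]
      apply mul_le_mul_of_nonneg_left _ (by positivity)
      rw [div_le_iff₀ (by positivity)]
      have : σ ^ 2 ≤ (10 * K) ^ 2 := pow_le_pow_left₀ hσ.le hσK _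
      nlinarith
    nlinarith
  calc m + m * σ ^ 2 / (22 * K) = m * (1 + σ ^ 2 / (22 * K)) := by ring
    _ ≤ m * Real.sqrt (1 + σ ^ 2) := mul_le_mul_of_nonneg_left hs hT.pos.le

theorem pq_le {p q : ℝ} (h : p ^ 2 + q ^ 2 = 1) : |p| ≤ 1 ∧ |q| ≤ 1 := by
  constructor
  · rw [← sq_le_one_iff_abs_le_one]; nlinarith [sq_nonneg q]
  · rw [← sq_le_one_iff_abs_le_one]; nlinarith [sq_nonneg p]

theorem wp_box {p q K t σ τ : ℝ} (hu : p ^ 2 + q ^ 2 = 1) (hK : 1 ≤ K) (ht1 : 1 ≤ t)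
    (hσ : 0 < σ) (hσK : σ ≤ 10 * K) (hτ : τ = 1 ∨ τ = -1) : Bx (20 * K * t) (wp p q t σ τ) := by
  obtain ⟨hp, hq⟩ := pq_le hu
  have hτa : |τ| = 1 := by rcases hτ with rfl | rfl <;> norm_num
  have hKt : 1 ≤ K * t := by nlinarith
  have key : ∀ r : ℝ, |r| ≤ 1 + σ → |((round (8 * t / 5 * r) : ℤ) : ℝ)| ≤ 20 * K * t := by
    intro r hr
    have h1 := abs_sub_round (8 * t / 5 * r)
    have h2 : |((round (8 * t / 5 * r) : ℤ) : ℝ)| ≤ |8 * t / 5 * r| + 1 / 2 := by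
      have := abs_sub_abs_le_abs_sub ((round (8 * t / 5 * r) : ℤ) : ℝ) (8 * t / 5 * r)
      rw [abs_sub_comm] at this
      linarith
    have h3 : |8 * t / 5 * r| ≤ 8 * t / 5 * (11 * K) := by
      rw [abs_mul, abs_of_nonneg (by linarith : (0 : ℝ) ≤ 8 * t / 5)]
      apply mul_le_mul_of_nonneg_left _ (by linarith)
      linarith
    nlinarith
  refine ⟨key _ ?_, key _ ?_⟩
  · calc |p - τ * σ * q| ≤ |p| + |τ * σ * q| := abs_sub _ _
      _ ≤ 1 + σ := by
        rw [abs_mul, abs_mul, hτa, one_mul, abs_of_pos hσ]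
        have := mul_le_mul_of_nonneg_left hq hσ.le
        linarith
  · calc |q + τ * σ * p| ≤ |q| + |τ * σ * p| := abs_add_le _ _
      _ ≤ 1 + σ := by
        rw [abs_mul, abs_mul, hτa, one_mul, abs_of_pos hσ]
        have := mul_le_mul_of_nonneg_left hp hσ.le
        linarith

theorem em_smul (s : ℤ) (v : ℤ × ℤ) : em (s • v) = (s : ℝ) • em v := by
  simp [Pool.Agent.N662.FP.em]

theorem em_sub (v w : ℤ × ℤ) : em (v - w) = em v - em w := by
  simp [Pool.Agent.N662.FP.em]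

theorem mu_s (μ : Seminorm ℝ (ℝ × ℝ)) {s : ℤ} (hs : s = 1 ∨ s = -1) (v : ℤ × ℤ) :
    μ (em (s • v)) = μ (em v) := by
  rw [em_smul, map_smul_eq_mul]
  rcases hs with rfl | rfl <;> simp

theorem box_add {R R' : ℝ} {s : ℤ} (hs : s = 1 ∨ s = -1) {a v : ℤ × ℤ} (ha : Bx R a)
    (hv : Bx R' v) : Bx (R + R') (a + s • v) := by
  have hsa : |(s : ℝ)| = 1 := by rcases hs with rfl | rfl <;> simp
  refine ⟨?_, ?_⟩
  · have : (((a + s • v).1 : ℤ) : ℝ) = (a.1 : ℝ) + s * v.1 := by simp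
    rw [this]
    refine (abs_add_le _ _).trans ?_
    rw [abs_mul, hsa, one_mul]
    exact add_le_add ha.1 hv.1
  · have : (((a + s • v).2 : ℤ) : ℝ) = (a.2 : ℝ) + s * v.2 := by simp
    rw [this]
    refine (abs_add_le _ _).trans ?_
    rw [abs_mul, hsa, one_mul]
    exact add_le_add ha.2 hv.2

theorem box_mono {R R' : ℝ} (h : R ≤ R') {v : ℤ × ℤ} (hv : Bx R v) : Bx R' v :=
  ⟨hv.1.trans h, hv.2.trans h⟩

/-- the deterministic part -/
theorem det1 {μ : Seminorm ℝ (ℝ × ℝ)} {p q m C K t σ τ S : ℝ} (hT : Touch μ p q m)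
    (hC : ∀ x : ℝ × ℝ, μ x ≤ C * max |x.1| |x.2|) (hC0 : 0 < C) (hK : 1 ≤ K) (ht1 : 1 ≤ t)
    (hσ : 0 < σ) (hσK : σ ≤ 10 * K) (hτ : τ = 1 ∨ τ = -1)
    (x : Sym2 (ℤ × ℤ) → ℝ) (hx : ∀ e, 0 ≤ x e) (a z : ℤ × ℤ) (s : ℤ) (hs : s = 1 ∨ s = -1)
    (ha : Bx (K * t) a) (hz : Bx (K * t) z) (h1 : t / 5 ≤ ht p q z) (h2 : ht p q z ≤ 4 * t / 5)
    (h3 : ht p q z * σ ≤ τ * lat p q z) (h4 : τ * lat p q z ≤ 2 * (ht p q z * σ))
    (hU : ∀ c d : ℤ × ℤ, Bx (100 * K * t) c → Bx (100 * K * t) d →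
      D x c d < μ (em (d - c)) + S)
    (hD : D x a (a + s • z) ≤ m * ht p q z + S) :
    D x a (a + s • wp p q t σ τ) ≤
      μ (em (wp p q t σ τ)) - t / 5 * (m * σ ^ 2 / (22 * K)) + 2 * S + 2 * C := by
  set w := wp p q t σ τ with hw
  set h := ht p q z with hh
  set y := τ * lat p q z with hy
  set g := μ (p - τ * σ * q, q + τ * σ * p) with hg
  have hu := hT.unit
  have hm := hT.pos
  have hτ2 : τ * τ = 1 := by rcases hτ with rfl | rfl <;> norm_num
  have hKt : 1 ≤ K * t := by nlinarith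
  have hgl := g_lower hT hK hσ hσK hτ
  rw [← hg] at hgl
  have hmg : m ≤ g := le_trans (le_add_of_nonneg_right (by positivity)) hgl
  have hwb := wp_box hu hK ht1 hσ hσK hτ
  rw [← hw] at hwb
  -- the real point
  let w' : ℝ × ℝ := (8 * t / 5 * (p - τ * σ * q), 8 * t / 5 * (q + τ * σ * p))
  have hw'g : μ w' = 8 * t / 5 * g := by
    have : w' = (8 * t / 5) • ((p - τ * σ * q, q + τ * σ * p) : ℝ × ℝ) := by
      simp [w']
    rw [this, map_smul_eq_mul, Real.norm_eq_abs, abs_of_nonneg (by linarith)]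
  have hround : μ (em w - w') ≤ C := by
    refine (hC _).trans ?_
    have e1 := abs_sub_round (8 * t / 5 * (p - τ * σ * q))
    have e2 := abs_sub_round (8 * t / 5 * (q + τ * σ * p))
    rw [abs_sub_comm] at e1 e2
    have : max |(em w - w').1| |(em w - w').2| ≤ 1 := by
      apply max_le
      · change |((round (8 * t / 5 * (p - τ * σ * q)) : ℤ) : ℝ) - 8 * t / 5 * (p - τ * σ * q)| ≤ 1
        linarith
      · change |((round (8 * t / 5 * (q + τ * σ * p)) : ℤ) : ℝ) - 8 * t / 5 * (q + τ * σ * p)| ≤ 1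
        linarith
    calc C * max |(em w - w').1| |(em w - w').2| ≤ C * 1 := mul_le_mul_of_nonneg_left this hC0.le
      _ = C := mul_one C
  have hh0 : 0 < h := by linarith
  -- the difference
  have hdiff : μ (w' - em z) ≤ (8 * t / 5 - h) * g := by
    set r := 8 * t / 5 - h with hr
    have hr0 : 0 < r := by linarith
    set ρ := 8 * t / 5 * σ - y with hρ
    have hρ0 : 0 ≤ ρ := by
      have : 2 * (h * σ) ≤ 8 * t / 5 * σ := by nlinarith
      linarith
    have hρ1 : ρ ≤ r * σ := by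
      rw [hρ, hr]; nlinarith
    set lam := ρ / (r * σ) with hlam
    have hl0 : 0 ≤ lam := by positivity
    have hl1 : lam ≤ 1 := by
      rw [hlam, div_le_one (by positivity)]; exact hρ1
    have hρl : lam * (r * σ) = ρ := by
      rw [hlam, div_mul_cancel₀ _ (by positivity)]
    have e : w' - em z = (lam * r) • ((p - τ * σ * q, q + τ * σ * p) : ℝ × ℝ) +
        ((1 - lam) * r) • ((p, q) : ℝ × ℝ) := by
      have hz1 : (z.1 : ℝ) = p * h - q * lat p q z := by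
        rw [hh]; unfold ht lat
        linear_combination (-(z.1 : ℝ)) * hu
      have hz2 : (z.2 : ℝ) = q * h + p * lat p q z := by
        rw [hh]; unfold ht lat
        linear_combination (-(z.2 : ℝ)) * hu
      have hlat : lat p q z = τ * y := by
        rw [hy, ← mul_assoc, hτ2, one_mul]
      have hy' : y = 8 * t / 5 * σ - lam * (r * σ) := by rw [hρl, hρ]; ring
      refine Prod.ext ?_ ?_
      · simp only [w', Pool.Agent.N662.FP.em, Prod.fst_sub, Prod.fst_add, Prod.smul_fst, smul_eq_mul]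
        rw [hz1, hlat, hy', hr]
        ring
      · simp only [w', Pool.Agent.N662.FP.em, Prod.snd_sub, Prod.snd_add, Prod.smul_snd, smul_eq_mul]
        rw [hz2, hlat, hy', hr]
        ring
    rw [e]
    refine (map_add_le_add μ _ _).trans ?_
    rw [map_smul_eq_mul, map_smul_eq_mul, Real.norm_eq_abs, Real.norm_eq_abs,
      abs_of_nonneg (by positivity), abs_of_nonneg (mul_nonneg (by linarith) hr0.le), hT.val, ← hg]
    have : (1 - lam) * r * m ≤ (1 - lam) * r * g :=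
      mul_le_mul_of_nonneg_left hmg (mul_nonneg (by linarith) hr0.le)
    nlinarith
  have hwz : μ (em (w - z)) ≤ (8 * t / 5 - h) * g + C := by
    have : em (w - z) = (em w - w') + (w' - em z) := by rw [em_sub]; abel
    rw [this]
    refine (map_add_le_add μ _ _).trans ?_
    linarith
  have hb1 : Bx (100 * K * t) (a + s • z) := box_mono (by nlinarith) (box_add hs ha hz)
  have hb2 : Bx (100 * K * t) (a + s • w) := box_mono (by nlinarith) (box_add hs ha hwb)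
  have hstep := hU _ _ hb1 hb2
  have hd : a + s • w - (a + s • z) = s • (w - z) := by
    rw [smul_sub]; abel
  rw [hd, mu_s μ hs] at hstep
  have htri := cTRI x hx a (a + s • z) (a + s • w)
  have hww : 8 * t / 5 * g ≤ μ (em w) + C := by
    rw [← hw'g]
    have : w' = em w - (em w - w') := by abel
    rw [this]
    have h5 := map_sub_le_add μ (em w) (em w - w')
    linarith
  have hfin : t / 5 * (m * σ ^ 2 / (22 * K)) ≤ h * (g - m) := by
    have h6 : m * σ ^ 2 / (22 * K) ≤ g - m := by linarith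
    have h7 : 0 ≤ m * σ ^ 2 / (22 * K) := by positivity
    exact mul_le_mul h1 h6 h7 hh0.le
  nlinarith

/-- the event of a fast passage to a given point is improbable -/
theorem prob1 {Ω : Type} [MeasureSpace Ω] [IsProbabilityMeasure (volume : Measure Ω)]
    {X : Sym2 (ℤ × ℤ) → Ω → ℝ} (hX : Iid X) {μ : Seminorm ℝ (ℝ × ℝ)} {κ A B b : ℝ}
    (hT : Tl X μ κ A B b) (a v : ℤ × ℤ) {l : ℝ} (hl : 0 < l) :
    (volume : Measure Ω).real {ω | D (env X ω) a (a + v) ≤ μ (em v) - l} ≤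
      2 / l * (B * (1 + μ (em v)) ^ (1 - κ)) := by
  have hint := cINT Ω X hX a (a + v)
  have hint0 := cINT Ω X hX 0 v
  have n1 : NullMeasurableSet {ω | μ (em v) - l / 2 ≤ D (env X ω) a (a + v)}
      (volume : Measure Ω) := nullMeasurableSet_le aemeasurable_const hint.aemeasurable
  have n0 : NullMeasurableSet {ω | μ (em v) - l / 2 ≤ D (env X ω) 0 v} (volume : Measure Ω) :=
    nullMeasurableSet_le aemeasurable_const hint0.aemeasurable
  have c1 := probReal_compl_eq_one_sub₀ n1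
  have c0 := probReal_compl_eq_one_sub₀ n0
  have hlaw := cTIL Ω X hX a v (μ (em v) - l / 2)
  have e1 : (volume : Measure Ω).real {ω | D (env X ω) a (a + v) ≤ μ (em v) - l} ≤
      (volume : Measure Ω).real {ω | μ (em v) - l / 2 ≤ D (env X ω) a (a + v)}ᶜ := by
    apply measureReal_mono _ (measure_ne_top _ _)
    intro ω hω
    simp only [Set.mem_ofPred_eq, Set.mem_compl_iff, not_le] at hω ⊢
    linarith
  have e2 : (volume : Measure Ω).real {ω | μ (em v) - l / 2 ≤ D (env X ω) a (a + v)}ᶜ =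
      (volume : Measure Ω).real {ω | μ (em v) - l / 2 ≤ D (env X ω) 0 v}ᶜ := by
    rw [c1, c0, hlaw]
  have e3 : (volume : Measure Ω).real {ω | μ (em v) - l / 2 ≤ D (env X ω) 0 v}ᶜ ≤
      (volume : Measure Ω).real {ω | l / 2 ≤ |D (env X ω) 0 v - μ (em v)|} := by
    apply measureReal_mono _ (measure_ne_top _ _)
    intro ω hω
    simp only [Set.mem_ofPred_eq, Set.mem_compl_iff, not_le] at hω ⊢
    rw [abs_sub_comm]
    refine le_trans ?_ (le_abs_self _)
    linarith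
  have hI : Integrable (fun ω => |D (env X ω) 0 v - μ (em v)|) (volume : Measure Ω) :=
    (hint0.sub (integrable_const _)).abs
  have hM := mul_meas_ge_le_integral_of_nonneg (Filter.Eventually.of_forall
    (fun ω => abs_nonneg (D (env X ω) 0 v - μ (em v)))) hI (l / 2)
  have hmean := hT.mean v
  have e4 : (volume : Measure Ω).real {ω | l / 2 ≤ |D (env X ω) 0 v - μ (em v)|} ≤
      2 / l * (B * (1 + μ (em v)) ^ (1 - κ)) := by
    have h5 : l / 2 * (volume : Measure Ω).real {ω | l / 2 ≤ |D (env X ω) 0 v - μ (em v)|} ≤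
        B * (1 + μ (em v)) ^ (1 - κ) := hM.trans hmean
    calc (volume : Measure Ω).real {ω | l / 2 ≤ |D (env X ω) 0 v - μ (em v)|}
        = 2 / l * (l / 2 * (volume : Measure Ω).real
            {ω | l / 2 ≤ |D (env X ω) 0 v - μ (em v)|}) := by
          field_simp
      _ ≤ _ := mul_le_mul_of_nonneg_left h5 (by positivity)
  exact e1.trans (e2.le.trans (e3.trans e4))

/-- the scales -/
theorem ev1 {κ δ m K C Q η : ℝ} (hκ1 : κ < 1) (hδ : 0 < δ) (hm : 0 < m) (hK : 1 ≤ K)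
    (hη : 0 < η) (_hQ : 0 ≤ Q) : ∀ᶠ t : ℝ in atTop,
      1 ≤ t ∧ 2 * t ^ (1 - κ + δ) + 2 * C ≤ m / (220 * K) * t ^ (1 - κ + 2 * δ) ∧
      Real.log (10 * K * t) ≤ Real.log 2 * t ^ δ ∧ 1 ≤ t ^ δ ∧ 4 * Q * t ^ (-δ) ≤ η := by
  have hK0 : 0 < K := by linarith
  have f1 : ∀ᶠ t : ℝ in atTop, (1 : ℝ) ≤ t := eventually_ge_atTop 1
  have f2 : ∀ᶠ t : ℝ in atTop, (440 * K / m) * (1 + |C|) ≤ t ^ δ :=
    (tendsto_rpow_atTop hδ).eventually_ge_atTop _
  have f3 : ∀ᶠ t : ℝ in atTop, 2 * Real.log (10 * K) / Real.log 2 ≤ t ^ δ :=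
    (tendsto_rpow_atTop hδ).eventually_ge_atTop _
  have l2 : 0 < Real.log 2 := Real.log_pos (by norm_num)
  have f4 : ∀ᶠ t : ℝ in atTop, ‖Real.log t‖ ≤ Real.log 2 / 2 * ‖t ^ δ‖ :=
    (isLittleO_log_rpow_atTop hδ).def (by positivity)
  have f5 : ∀ᶠ t : ℝ in atTop, 4 * Q / η ≤ t ^ δ :=
    (tendsto_rpow_atTop hδ).eventually_ge_atTop _
  filter_upwards [f1, f2, f3, f4, f5] with t h1 h2 h3 h4 h5
  have ht0 : 0 < t := by linarith
  have hd : 1 ≤ t ^ δ := Real.one_le_rpow h1 hδ.le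
  refine ⟨h1, ?_, ?_, hd, ?_⟩
  · have e1 : t ^ (1 - κ + 2 * δ) = t ^ (1 - κ + δ) * t ^ δ := by
      rw [← Real.rpow_add ht0]; congr 1; ring
    have e2 : 1 ≤ t ^ (1 - κ + δ) := Real.one_le_rpow h1 (by linarith)
    have e3 : 2 * (1 + |C|) ≤ m / (220 * K) * t ^ δ := by
      have := mul_le_mul_of_nonneg_left h2 (by positivity : 0 ≤ m / (220 * K))
      refine le_trans (le_of_eq ?_) this
      field_simp
      ring
    rw [e1]
    have e4 : 2 * t ^ (1 - κ + δ) + 2 * C ≤ t ^ (1 - κ + δ) * (2 * (1 + |C|)) := by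
      have : |C| ≤ t ^ (1 - κ + δ) * |C| := le_mul_of_one_le_left (abs_nonneg C) e2
      have := le_abs_self C
      nlinarith
    calc _ ≤ t ^ (1 - κ + δ) * (2 * (1 + |C|)) := e4
      _ ≤ t ^ (1 - κ + δ) * (m / (220 * K) * t ^ δ) :=
        mul_le_mul_of_nonneg_left e3 (by linarith)
      _ = _ := by ring
  · rw [Real.log_mul (by positivity) ht0.ne']
    rw [Real.norm_eq_abs, Real.norm_eq_abs, abs_of_nonneg (by linarith : 0 ≤ t ^ δ)] at h4
    have h6 := le_abs_self (Real.log t)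
    rw [div_le_iff₀ l2] at h3
    nlinarith
  · rw [Real.rpow_neg ht0.le]
    rw [div_le_iff₀ hη] at h5
    rw [← div_eq_mul_inv, div_le_iff₀ (by linarith)]
    linarith

theorem mu_w_le {μ : Seminorm ℝ (ℝ × ℝ)} {C R : ℝ}
    (hC : ∀ x : ℝ × ℝ, μ x ≤ C * max |x.1| |x.2|) (hC0 : 0 < C)
    {w : ℤ × ℤ} (hw : Bx R w) : μ (em w) ≤ C * R := by
  refine (hC _).trans (mul_le_mul_of_nonneg_left ?_ hC0.le)
  exact max_le hw.1 hw.2

theorem exj {σ0 h L : ℝ} (hσ0 : 0 < σ0) (hh : 0 < h) (h1 : h * σ0 ≤ L) :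
    ∃ n : ℕ, h * (σ0 * 2 ^ n) ≤ L ∧ L ≤ 2 * (h * (σ0 * 2 ^ n)) := by
  obtain ⟨n, hn1, hn2⟩ := exists_nat_pow_near (x := L / (h * σ0)) (y := 2)
    (by rw [le_div_iff₀ (by positivity)]; linarith) (by norm_num)
  refine ⟨n, ?_, ?_⟩
  · rw [le_div_iff₀ (by positivity)] at hn1
    linarith
  · rw [div_lt_iff₀ (by positivity), pow_succ] at hn2
    linarith

theorem t_CRX : Pool.Agent.U685.IN.S_CRX := by
  intro Ω _ _ X hX μ hμ κ A B b δ K hκ0 hκ1 hδ hδκ hK hTl p q m hT η hη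
  obtain ⟨c, C, hc, hC0, hcC⟩ := cNORM μ hμ
  have hC : ∀ x : ℝ × ℝ, μ x ≤ C * max |x.1| |x.2| := fun x => (hcC x).2
  have hm := hT.pos
  have hK0 : 0 < K := by linarith
  set G : ℝ := 1 + 20 * C * K with hG
  have hG0 : 0 < G := by positivity
  set Q : ℝ := 440 * K / m * (|B| * G ^ (1 - κ)) with hQ
  have hQ0 : 0 ≤ Q := by positivity
  filter_upwards [ev1 (κ := κ) (C := C) hκ1 hδ hm hK hη hQ0] with t ht
  obtain ⟨h1, h2, h3, h4, h5⟩ := ht
  intro a s ha hs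
  have ht0 : 0 < t := by linarith
  set σ0 : ℝ := t ^ (-κ / 2 + δ) with hσ0
  have hσ0p : 0 < σ0 := Real.rpow_pos_of_pos ht0 _
  set l : ℝ := m / (220 * K) * t ^ (1 - κ + 2 * δ) with hl
  have hl0 : 0 < l := by positivity
  set N : ℕ := ⌊t ^ δ⌋₊ + 1 with hN
  -- probability of one event
  have hone : ∀ (i : ℕ) (τ : ℝ), σ0 * 2 ^ i ≤ 10 * K → (τ = 1 ∨ τ = -1) →
      (volume : Measure Ω).real {ω | D (env X ω) a (a + s • wp p q t (σ0 * 2 ^ i) τ) ≤
        μ (em (wp p q t (σ0 * 2 ^ i) τ)) - l} ≤ Q * t ^ (-(2 * δ)) := by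
    intro i τ hi hτ
    have hσ : 0 < σ0 * 2 ^ i := by positivity
    have hb := mu_w_le hC hC0 (wp_box hT.unit hK h1 hσ hi hτ)
    have hP := prob1 hX hTl a (s • wp p q t (σ0 * 2 ^ i) τ) hl0
    rw [mu_s μ hs] at hP
    refine hP.trans ?_
    set y := μ (em (wp p q t (σ0 * 2 ^ i) τ)) with hy
    have hy0 : 0 ≤ y := apply_nonneg μ _
    have hy1 : 1 + y ≤ G * t := by rw [hG]; nlinarith
    have h6 : (1 + y) ^ (1 - κ) ≤ (G * t) ^ (1 - κ) :=
      Real.rpow_le_rpow (by linarith) hy1 (by linarith)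
    have h7 : B * (1 + y) ^ (1 - κ) ≤ |B| * (G * t) ^ (1 - κ) :=
      mul_le_mul (le_abs_self B) h6 (by positivity) (abs_nonneg B)
    have h8 : 2 / l * (B * (1 + y) ^ (1 - κ)) ≤ 2 / l * (|B| * (G * t) ^ (1 - κ)) :=
      mul_le_mul_of_nonneg_left h7 (by positivity)
    refine h8.trans (le_of_eq ?_)
    rw [Real.mul_rpow hG0.le ht0.le, hQ, hl]
    have e1 : t ^ (1 - κ + 2 * δ) = t ^ (1 - κ) * t ^ (2 * δ) := by rw [← Real.rpow_add ht0]
    have e2 : t ^ (-(2 * δ)) = (t ^ (2 * δ))⁻¹ := Real.rpow_neg ht0.le _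
    rw [e1, e2]
    have p1 : 0 < t ^ (1 - κ) := by positivity
    have p2 : 0 < t ^ (2 * δ) := by positivity
    field_simp
    ring
  set F : Finset (ℕ × ℝ) :=
    ((Finset.range N).filter (fun i => σ0 * 2 ^ i ≤ 10 * K)) ×ˢ ({1, -1} : Finset ℝ) with hF
  have hFc : (F.card : ℝ) ≤ 2 * N := by
    have h9 : F.card ≤ N * 2 := by
      rw [hF, Finset.card_product]
      exact Nat.mul_le_mul ((Finset.card_filter_le _ _).trans (by simp)) Finset.card_le_two
    have h10 : (F.card : ℝ) ≤ ((N * 2 : ℕ) : ℝ) := by exact_mod_cast h9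
    push_cast at h10
    linarith
  have hmem : ∀ i ∈ F, σ0 * 2 ^ i.1 ≤ 10 * K ∧ (i.2 = 1 ∨ i.2 = -1) := by
    intro i hi
    rw [hF, Finset.mem_product, Finset.mem_filter] at hi
    exact ⟨hi.1.2, by simpa using hi.2⟩
  set E : ℕ × ℝ → Set Ω := fun i => {ω | D (env X ω) a (a + s • wp p q t (σ0 * 2 ^ i.1) i.2) ≤
    μ (em (wp p q t (σ0 * 2 ^ i.1) i.2)) - l} with hE
  have hunion := measureReal_biUnion_finset_le (μ := (volume : Measure Ω)) F E
  have hsum : ∑ i ∈ F, (volume : Measure Ω).real (E i) ≤ F.card • (Q * t ^ (-(2 * δ))) :=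
    Finset.sum_le_card_nsmul _ _ _ (fun i hi => hone i.1 i.2 (hmem i hi).1 (hmem i hi).2)
  have hfin : F.card • (Q * t ^ (-(2 * δ))) ≤ η := by
    rw [nsmul_eq_mul]
    have e2 : t ^ (-(2 * δ)) = t ^ (-δ) * (t ^ δ)⁻¹ := by
      rw [← Real.rpow_neg ht0.le, ← Real.rpow_add ht0]; congr 1; ring
    have hNt : (N : ℝ) ≤ 2 * t ^ δ := by
      rw [hN]; push_cast
      have := Nat.floor_le (by linarith : 0 ≤ t ^ δ)
      linarith
    have p1 : 0 < t ^ (-δ) := by positivity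
    have p2 : 0 < t ^ δ := by positivity
    calc (F.card : ℝ) * (Q * t ^ (-(2 * δ))) ≤ (4 * t ^ δ) * (Q * t ^ (-(2 * δ))) := by
          apply mul_le_mul_of_nonneg_right (by linarith) (by positivity)
      _ = 4 * Q * t ^ (-δ) := by
          rw [e2]; field_simp
      _ ≤ η := h5
  refine le_trans ?_ (hunion.trans (hsum.trans hfin))
  have hae := cAE Ω X hX
  rw [Measure.real, Measure.real]
  apply ENNReal.toReal_mono (measure_ne_top _ _)
  apply measure_mono_ae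
  filter_upwards [hae] with ω hω hbad
  obtain ⟨hU, hz⟩ := hbad
  push Not at hz
  obtain ⟨z, hzb, hz1, hz2, hz3, hz4⟩ := hz
  change ω ∈ ⋃ i ∈ F, E i
  obtain ⟨hp, hq⟩ := pq_le hT.unit
  set h := ht p q z with hh
  have hh0 : 0 < h := by linarith
  have hL1 : h * σ0 ≤ |lat p q z| := by
    refine le_trans ?_ hz3
    have : t ^ (1 - κ / 2 + δ) = t * σ0 := by
      rw [hσ0]
      nth_rewrite 2 [← Real.rpow_one t]
      rw [← Real.rpow_add ht0]; congr 1; ring
    rw [this]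
    exact mul_le_mul_of_nonneg_right (by linarith) hσ0p.le
  have hL2 : |lat p q z| ≤ 2 * K * t := by
    unfold lat
    refine (abs_sub _ _).trans ?_
    rw [abs_mul, abs_mul]
    have i1 : |p| * |(z.2 : ℝ)| ≤ 1 * (K * t) :=
      mul_le_mul hp hzb.2 (abs_nonneg _) (by norm_num)
    have i2 : |q| * |(z.1 : ℝ)| ≤ 1 * (K * t) :=
      mul_le_mul hq hzb.1 (abs_nonneg _) (by norm_num)
    linarith
  obtain ⟨n, hn1, hn2⟩ := exj hσ0p hh0 hL1
  have h2n : (1 : ℝ) ≤ 2 ^ n := one_le_pow₀ (by norm_num)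
  have hσp : 0 < σ0 * 2 ^ n := by positivity
  have hσK : σ0 * 2 ^ n ≤ 10 * K := by
    have i1 : t / 5 * (σ0 * 2 ^ n) ≤ h * (σ0 * 2 ^ n) := mul_le_mul_of_nonneg_right hz1 hσp.le
    have i2 : t * (σ0 * 2 ^ n) ≤ t * (10 * K) := by linarith
    exact le_of_mul_le_mul_left i2 ht0
  have hnN : n < N := by
    have i1 : t⁻¹ ≤ σ0 := by
      rw [hσ0, ← Real.rpow_neg_one]
      exact Real.rpow_le_rpow_of_exponent_le h1 (by linarith)
    have i2 : t⁻¹ * 2 ^ n ≤ 10 * K :=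
      le_trans (mul_le_mul_of_nonneg_right i1 (by positivity)) hσK
    have i3 : (2 : ℝ) ^ n ≤ 10 * K * t := by
      have := mul_le_mul_of_nonneg_right i2 ht0.le
      calc (2 : ℝ) ^ n = t⁻¹ * 2 ^ n * t := by field_simp
        _ ≤ 10 * K * t := this
    have i4 : (n : ℝ) * Real.log 2 ≤ Real.log 2 * t ^ δ := by
      rw [← Real.log_pow]
      exact (Real.log_le_log (by positivity) i3).trans h3
    have l2 : 0 < Real.log 2 := Real.log_pos (by norm_num)
    have i5 : (n : ℝ) ≤ t ^ δ := by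
      rw [mul_comm] at i4
      exact le_of_mul_le_mul_left i4 l2
    exact Nat.lt_succ_of_le (Nat.le_floor i5)
  -- the gain
  have hgain : 2 * l ≤ t / 5 * (m * (σ0 * 2 ^ n) ^ 2 / (22 * K)) := by
    have i1 : σ0 ≤ σ0 * 2 ^ n := le_mul_of_one_le_right hσ0p.le h2n
    have i2 : σ0 ^ 2 ≤ (σ0 * 2 ^ n) ^ 2 := pow_le_pow_left₀ hσ0p.le i1 2
    have i3 : t * σ0 ^ 2 = t ^ (1 - κ + 2 * δ) := by
      rw [hσ0, ← Real.rpow_natCast, ← Real.rpow_mul ht0.le]
      nth_rewrite 1 [← Real.rpow_one t]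
      rw [← Real.rpow_add ht0]; congr 1; push_cast; ring
    have i4 : 2 * l = t / 5 * (m * σ0 ^ 2 / (22 * K)) := by
      rw [hl, ← i3]; field_simp; ring
    rw [i4]
    apply mul_le_mul_of_nonneg_left _ (by positivity)
    apply div_le_div_of_nonneg_right _ (by positivity)
    exact mul_le_mul_of_nonneg_left i2 hm.le
  obtain ⟨τ, hτ, hτL⟩ : ∃ τ : ℝ, (τ = 1 ∨ τ = -1) ∧ τ * lat p q z = |lat p q z| := by
    rcases le_total 0 (lat p q z) with h0 | h0
    · exact ⟨1, Or.inl rfl, by rw [abs_of_nonneg h0, one_mul]⟩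
    · exact ⟨-1, Or.inr rfl, by rw [abs_of_nonpos h0]; ring⟩
  have hdet := det1 (S := t ^ (1 - κ + δ)) hT hC hC0 hK h1 hσp hσK hτ (env X ω) hω a z s hs ha hzb
    hz1 hz2 (by rw [hτL]; exact hn1) (by rw [hτL]; exact hn2) hU hz4
  rw [Set.mem_iUnion₂]
  refine ⟨(n, τ), ?_, ?_⟩
  · rw [hF, Finset.mem_product, Finset.mem_filter, Finset.mem_range]
    refine ⟨⟨hnN, hσK⟩, ?_⟩
    simpa using hτ
  · change D (env X ω) a (a + s • wp p q t (σ0 * 2 ^ n) τ) ≤
      μ (em (wp p q t (σ0 * 2 ^ n) τ)) - l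
    linarith

end Pool.Agent.U934.IX
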